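import Pool.Agent.Y916.HStm
import Pool.Agent.Y37.GF.PS

/-! Values of the power series of hyperelliptic integrals: preliminaries. -/

set_option autoImplicit false

open PowerSeries Filter Topology Set

namespace Pool.Agent.Y574.HE

open Pool.Agent.Y113 Pool.Agent.Y916.Hy Pool.Agent.Y37.GF

theorem phi_deg (F : Polynomial ℤ) (g : ℕ) : (phi F g).natDegree ≤ F.natDegree := by
  unfold phi
  refine (Polynomial.reverse_natDegree_le _).trans ?_
  rw [Polynomial.natDegree_comp, Polynomial.natDegree_X_add_C, mul_one]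

theorem phi_zero (F : Polynomial ℤ) (g : ℕ) : (phi F g).coeff 0 = F.leadingCoeff := by
  unfold phi
  rw [Polynomial.coeff_zero_reverse, Polynomial.leadingCoeff_comp
    (by rw [Polynomial.natDegree_X_add_C]; exact one_ne_zero), Polynomial.leadingCoeff_X_add_C, one_pow, mul_one]

theorem comp_bound (F : Polynomial ℤ) : ∃ K : ℕ, ∀ H g : ℕ, g ≤ H → ∀ l,
    |(F.comp (Polynomial.X + Polynomial.C (g : ℤ))).coeff l| ≤ ((H : ℤ) + 2) ^ K := by
  induction F using Polynomial.induction_on with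
  | C a =>
    refine ⟨a.natAbs, fun H g _ l => ?_⟩
    rw [Polynomial.C_comp, Polynomial.coeff_C]
    split_ifs
    · have h1 : a.natAbs < 2 ^ a.natAbs := Nat.lt_two_pow_self
      have h2 : |a| = (a.natAbs : ℤ) := Int.abs_eq_natAbs a
      rw [h2]
      have h3 : ((a.natAbs : ℕ) : ℤ) ≤ 2 ^ a.natAbs := by exact_mod_cast h1.le
      refine h3.trans (pow_le_pow_left₀ (by norm_num) (by omega) _)
    · rw [abs_zero]; positivity
  | add P Q hP hQ =>
    obtain ⟨K1, h1⟩ := hP
    obtain ⟨K2, h2⟩ := hQ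
    refine ⟨K1 + K2 + 1, fun H g hg l => ?_⟩
    rw [Polynomial.add_comp, Polynomial.coeff_add]
    have e1 := h1 H g hg l
    have e2 := h2 H g hg l
    have b : (1 : ℤ) ≤ (H : ℤ) + 2 := by omega
    have e3 : ((H : ℤ) + 2) ^ K1 ≤ ((H : ℤ) + 2) ^ (K1 + K2) := pow_le_pow_right₀ b (by omega)
    have e4 : ((H : ℤ) + 2) ^ K2 ≤ ((H : ℤ) + 2) ^ (K1 + K2) := pow_le_pow_right₀ b (by omega)
    have e5 : (0 : ℤ) < ((H : ℤ) + 2) ^ (K1 + K2) := by positivity
    have e6 := abs_add_le ((P.comp (Polynomial.X + Polynomial.C (g : ℤ))).coeff l)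
      ((Q.comp (Polynomial.X + Polynomial.C (g : ℤ))).coeff l)
    rw [pow_succ]
    nlinarith
  | monomial m a ih =>
    obtain ⟨K, h⟩ := ih
    refine ⟨K + 1, fun H g hg l => ?_⟩
    have e0 : (Polynomial.C a * Polynomial.X ^ (m + 1)).comp (Polynomial.X + Polynomial.C (g : ℤ)) =
        (Polynomial.C a * Polynomial.X ^ m).comp (Polynomial.X + Polynomial.C (g : ℤ)) * Polynomial.X +
        (Polynomial.C a * Polynomial.X ^ m).comp (Polynomial.X + Polynomial.C (g : ℤ)) * Polynomial.C (g : ℤ) := by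
      rw [pow_succ, ← mul_assoc, Polynomial.mul_comp, Polynomial.X_comp, mul_add]
    rw [e0, Polynomial.coeff_add, Polynomial.coeff_mul_C]
    set Q := (Polynomial.C a * Polynomial.X ^ m).comp (Polynomial.X + Polynomial.C (g : ℤ)) with hQ
    have e1 : |(Q * Polynomial.X).coeff l| ≤ ((H : ℤ) + 2) ^ K := by
      rcases l with _ | l
      · rw [Polynomial.coeff_mul_X_zero, abs_zero]; positivity
      · rw [Polynomial.coeff_mul_X]; exact h H g hg l
    have e2 : |Q.coeff l * (g : ℤ)| ≤ ((H : ℤ) + 2) ^ K * H := by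
      rw [abs_mul, abs_of_nonneg (Int.natCast_nonneg g)]
      exact mul_le_mul (h H g hg l) (by exact_mod_cast hg) (Int.natCast_nonneg g) (by positivity)
    have e3 := abs_add_le ((Q * Polynomial.X).coeff l) (Q.coeff l * (g : ℤ))
    have e5 : (0 : ℤ) < ((H : ℤ) + 2) ^ K := by positivity
    rw [pow_succ]
    nlinarith

theorem phi_bound (F : Polynomial ℤ) : ∃ K : ℕ, ∀ H g : ℕ, g ≤ H → ∀ l,
    |(phi F g).coeff l| ≤ (((H + 2) ^ K : ℕ) : ℤ) := by
  obtain ⟨K, hK⟩ := comp_bound F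
  refine ⟨K, fun H g hg l => ?_⟩
  unfold phi
  rw [Polynomial.coeff_reverse]
  push_cast
  exact hK H g hg _

theorem E_ps (P : Polynomial ℤ) (z : ℝ) : E (ps P) z = (P.map (Int.castRingHom ℝ)).eval z := by
  unfold ps
  rw [E_poly, Polynomial.aeval_def, Polynomial.eval₂_map, Polynomial.eval_map]
  congr 1

theorem phi_eval (F : Polynomial ℤ) (g : ℕ) {t : ℝ} (ht : t ≠ 0) :
    E (ps (phi F g)) (1 / t) * t ^ F.natDegree = (F.map (Int.castRingHom ℝ)).eval (t + g) := by
  have h0 : (F.comp (Polynomial.X + Polynomial.C (g : ℤ))).natDegree = F.natDegree := by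
    rw [Polynomial.natDegree_comp, Polynomial.natDegree_X_add_C, mul_one]
  haveI : Invertible t := invertibleOfNonzero ht
  have h1 := Polynomial.eval₂_reverse_mul_pow (Int.castRingHom ℝ) t (F.comp (Polynomial.X + Polynomial.C (g : ℤ)))
  rw [h0, invOf_eq_inv] at h1
  rw [E_ps, Polynomial.eval_map, one_div]
  unfold phi
  rw [h1, Polynomial.eval₂_comp, Polynomial.eval_map]
  simp

theorem E_zero' (f : ℚ⟦X⟧) : E f 0 = ((constantCoeff f : ℚ) : ℝ) := by
  unfold E
  rw [tsum_eq_single 0]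
  · simp
  · intro m hm
    simp [hm]

theorem analyticAt_E {r : ℝ} {f : ℚ⟦X⟧} (hr : 0 < r) (h : SR r f) : AnalyticAt ℝ (E f) 0 := by
  refine ⟨FormalMultilinearSeries.ofScalars ℝ (fun m => ((coeff m f : ℚ) : ℝ)), ?_⟩
  rw [hasFPowerSeriesAt_iff]
  have h1 : Metric.ball (0 : ℝ) r ∈ 𝓝 (0 : ℝ) := Metric.ball_mem_nhds _ hr
  filter_upwards [h1] with z hz
  rw [mem_ball_zero_iff, Real.norm_eq_abs] at hz
  rw [zero_add]
  refine (h.hasSum hz.le).congr_fun ?_ |> fun h => h
  intro m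
  rw [FormalMultilinearSeries.coeff_ofScalars, smul_eq_mul, mul_comm]

end Pool.Agent.Y574.HE
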