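import Pool.Agent.Y574.HE.A

/-! The values of the square root and the differential equation of the integrals. -/

set_option autoImplicit false

open PowerSeries Filter Topology Set

namespace Pool.Agent.Y574.HE

open Pool.Agent.Y113 Pool.Agent.Y916.Hy Pool.Agent.Y37.GF

theorem SR_ps (P : Polynomial ℤ) (r : ℝ) : SR r (ps P) := SR.poly _ r

theorem Rt_mul (hrt : S_rt) {φ : Polynomial ℤ} (h0 : 0 < φ.coeff 0) {r z : ℝ} (hR : SR r (Rt φ)) (hz : |z| ≤ r) :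
    E (Rt φ) z ^ 2 * E (ps φ) z = φ.coeff 0 := by
  have hr : 0 ≤ r := (abs_nonneg z).trans hz
  have h1 := congrArg (fun f => E f z) (hrt φ h0).1
  rw [E_mul (hR.pow hr 2) (SR_ps φ r) hz, E_pow hr hR hz, E_C] at h1
  rw [h1]
  simp

theorem Rt_pos (hrt : S_rt) {φ : Polynomial ℤ} (h0 : 0 < φ.coeff 0) {r z : ℝ} (hR : SR r (Rt φ)) (hz0 : 0 ≤ z)
    (hz : z < r) : 0 < E (Rt φ) z := by
  have e0 : E (Rt φ) 0 = 1 := by rw [E_zero', (hrt φ h0).2, Rat.cast_one]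
  have hne : ∀ x, 0 ≤ x → x ≤ z → E (Rt φ) x ≠ 0 := by
    intro x hx hxz h
    have h1 := Rt_mul hrt h0 hR (z := x) (by rw [abs_of_nonneg hx]; linarith)
    rw [h] at h1
    have h2 : (0 : ℝ) < (φ.coeff 0 : ℝ) := by exact_mod_cast h0
    simp at h1
    linarith
  by_contra hcon
  rw [not_lt] at hcon
  have hcont : ContinuousOn (E (Rt φ)) (Icc 0 z) := by
    intro x hx
    exact (hasDerivAt_E hR (by rw [abs_of_nonneg hx.1]; exact lt_of_le_of_lt hx.2 hz)).continuousAt.continuousWithinAt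
  have h2 := intermediate_value_Icc' hz0 hcont
  have h3 : (0 : ℝ) ∈ Icc (E (Rt φ) z) (E (Rt φ) 0) := ⟨hcon, by rw [e0]; norm_num⟩
  obtain ⟨x, hx, hx2⟩ := h2 h3
  exact hne x hx.1 hx.2 hx2

/-- the value of the square root -/
theorem Rt_val (hrt : S_rt) {F : Polynomial ℤ} (hF : 0 < F.leadingCoeff) (g : ℕ) {r t : ℝ}
    (hR : SR r (Rt (phi F g))) (ht : 0 < t) (htr : 1 / t < r)
    (hpos : 0 < (F.map (Int.castRingHom ℝ)).eval (t + g)) :
    E (Rt (phi F g)) (1 / t) = √(F.leadingCoeff : ℝ) * √t ^ F.natDegree /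
      √((F.map (Int.castRingHom ℝ)).eval (t + g)) := by
  have h0 : 0 < (phi F g).coeff 0 := by rw [phi_zero]; exact hF
  have hz : 0 < 1 / t := by positivity
  have h1 := Rt_mul hrt h0 hR (z := 1 / t) (by rw [abs_of_pos hz]; exact htr.le)
  have h2 := Rt_pos hrt h0 hR hz.le htr
  have h3 := phi_eval F g ht.ne'
  rw [phi_zero] at h1
  have ha : (0 : ℝ) < (F.leadingCoeff : ℝ) := by exact_mod_cast hF
  have h5 : 0 < √((F.map (Int.castRingHom ℝ)).eval (t + g)) := Real.sqrt_pos.2 hpos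
  rw [← abs_of_pos h2, ← abs_of_pos (a := √(F.leadingCoeff : ℝ) * √t ^ F.natDegree /
      √((F.map (Int.castRingHom ℝ)).eval (t + g))) (by positivity)]
  rw [← sq_eq_sq_iff_abs_eq_abs, div_pow, mul_pow, Real.sq_sqrt ha.le, Real.sq_sqrt hpos.le, ← pow_mul,
    mul_comm F.natDegree 2, pow_mul, Real.sq_sqrt ht.le, eq_div_iff hpos.ne', ← h3, ← h1]
  ring

theorem coeff_EU (a : ℤ) (R : ℚ⟦X⟧) (m : ℕ) : coeff m (EU a R) = 2 * coeff m R / (2 * (m : ℚ) + a) := by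
  unfold EU; rw [coeff_mk]

theorem den_ne {a : ℤ} (ha : Odd a) (m : ℕ) : (1 : ℚ) ≤ |2 * (m : ℚ) + a| := by
  have h1 : (2 * (m : ℤ) + a) ≠ 0 := by
    obtain ⟨k, hk⟩ := ha
    omega
  have h2 : (1 : ℤ) ≤ |2 * (m : ℤ) + a| := Int.one_le_abs h1
  have h3 : ((|2 * (m : ℤ) + a| : ℤ) : ℚ) = |2 * (m : ℚ) + a| := by push_cast; rfl
  rw [← h3]
  exact_mod_cast h2

theorem EU_ode {a : ℤ} (ha : Odd a) (R : ℚ⟦X⟧) :
    2 * (X * d⁄dX ℚ (EU a R)) + (a : ℚ⟦X⟧) * EU a R = 2 * R := by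
  ext m
  have hne : (2 * (m : ℚ) + a) ≠ 0 := by
    intro h
    have := den_ne ha m
    rw [h, abs_zero] at this
    linarith
  have c2 : (2 : ℚ⟦X⟧) = C (2 : ℚ) := by rw [map_ofNat]
  have ca : (a : ℚ⟦X⟧) = C (a : ℚ) := by rw [map_intCast]
  rw [map_add, c2, ca, coeff_C_mul, coeff_C_mul, coeff_C_mul]
  have h1 : coeff m (X * d⁄dX ℚ (EU a R)) = m * coeff m (EU a R) := by
    rcases m with _ | m
    · simp
    · rw [coeff_succ_X_mul, coeff_derivative]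
      push_cast
      ring
  rw [h1, coeff_EU]
  field_simp
  
theorem SR_EU {a : ℤ} (ha : Odd a) {r : ℝ} (hr : 0 ≤ r) {R : ℚ⟦X⟧} (h : SR r R) : SR r (EU a R) := by
  refine Summable.of_nonneg_of_le (fun m => by positivity) (fun m => ?_) (h.mul_left 2)
  rw [coeff_EU, Rat.cast_div, abs_div]
  have h1 : (1 : ℝ) ≤ |((2 * (m : ℚ) + a : ℚ) : ℝ)| := by
    rw [← Rat.cast_abs]; exact_mod_cast den_ne ha m
  have h2 : |((2 * coeff m R : ℚ) : ℝ)| = 2 * |((coeff m R : ℚ) : ℝ)| := by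
    push_cast; rw [abs_mul]; norm_num
  rw [h2, ← mul_assoc]
  refine mul_le_mul_of_nonneg_right ?_ (by positivity)
  exact div_le_self (by positivity) h1

/-- the derivative of `√t ^ (-a) f(1/t)` -/
theorem W_deriv {a : ℤ} (ha : Odd a) {r t : ℝ} {S : ℚ⟦X⟧} (h : SR r S) (ht : 0 < t) (htr : 1 / t < r) :
    HasDerivAt (fun t : ℝ => √t ^ (-a) * E (EU a S) (1 / t)) (-(√t ^ (-a - 2) * E S (1 / t))) t := by
  have hz : 0 < 1 / t := by positivity
  have hr : 0 < r := hz.trans htr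
  have hU := SR_EU ha hr.le h
  have hs : 0 < √t := Real.sqrt_pos.2 ht
  have h1 : HasDerivAt (fun t : ℝ => E (EU a S) (1 / t)) (E (d⁄dX ℚ (EU a S)) (1 / t) * (-(t ^ 2)⁻¹)) t := by
    have e1 : HasDerivAt (fun t : ℝ => 1 / t) (-(t ^ 2)⁻¹) t := by
      simpa [one_div] using hasDerivAt_inv ht.ne'
    exact (hasDerivAt_E hU (by rw [abs_of_pos hz]; exact htr)).comp t e1
  have h2 : HasDerivAt (fun t : ℝ => √t ^ (-a)) (((-a : ℤ) : ℝ) * √t ^ (-a - 1) * (1 / (2 * √t))) t := by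
    have e1 := Real.hasDerivAt_sqrt ht.ne'
    exact (hasDerivAt_zpow (-a) (√t) (Or.inl hs.ne')).comp t e1
  refine (h2.mul h1).congr_deriv ?_
  -- the differential equation
  obtain ⟨r', hr1, hr2⟩ := exists_between htr
  have hr'0 : 0 < r' := hz.trans hr1
  have hdU : SR r' (d⁄dX ℚ (EU a S)) := hU.der hr'0.le hr2
  have hzr : |1 / t| ≤ r' := by rw [abs_of_pos hz]; exact hr1.le
  have h3 := congrArg (fun f => E f (1 / t)) (EU_ode ha S)
  have c2 : (2 : ℚ⟦X⟧) = C (2 : ℚ) := by rw [map_ofNat]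
  have ca : (a : ℚ⟦X⟧) = C (a : ℚ) := by rw [map_intCast]
  have hU' := hU.mono hr'0.le hr2.le
  have hS' := h.mono hr'0.le hr2.le
  rw [c2, ca, E_add ((SR.C 2 r').mul hr'0.le ((SR.X r').mul hr'0.le hdU)) ((SR.C _ r').mul hr'0.le hU') hzr,
    E_mul (SR.C 2 r') ((SR.X r').mul hr'0.le hdU) hzr, E_mul (SR.X r') hdU hzr, E_mul (SR.C _ r') hU' hzr,
    E_mul (SR.C 2 r') hS' hzr, E_C, E_C, E_X] at h3
  push_cast at h3
  have hsq : √t ^ 2 = t := Real.sq_sqrt ht.le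
  have z1 : √t ^ (-a - 1) = √t ^ (-a - 2) * √t := by
    rw [show (-a - 1 : ℤ) = (-a - 2) + 1 by ring, zpow_add_one₀ hs.ne']
  have z2 : √t ^ (-a) = √t ^ (-a - 2) * t := by
    calc √t ^ (-a) = √t ^ ((-a - 2) + 2) := by rw [show (-a - 2 + 2 : ℤ) = -a by ring]
      _ = √t ^ (-a - 2) * √t ^ (2 : ℤ) := zpow_add₀ hs.ne' _ _
      _ = √t ^ (-a - 2) * t := by rw [show √t ^ (2 : ℤ) = t by exact_mod_cast hsq]
  rw [z1, z2]
  have h4 : E S (1 / t) = (2 * (1 / t * E (d⁄dX ℚ (EU a S)) (1 / t)) + a * E (EU a S) (1 / t)) / 2 := by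
    linarith
  rw [h4]
  push_cast
  have := ht.ne'
  have := hs.ne'
  field_simp
  ring

end Pool.Agent.Y574.HE
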