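import Pool.Agent.Y574.HE.B

/-! The integral plus the value of the power series is constant. -/

set_option autoImplicit false

open PowerSeries Filter Topology Set

namespace Pool.Agent.Y574.HE

open Pool.Agent.Y113 Pool.Agent.Y916.Hy Pool.Agent.Y37.GF

theorem J_deriv (F : Polynomial ℤ) (c : ℝ) (hc : ∀ x ≥ c, 0 < (F.map (Int.castRingHom ℝ)).eval x) (j : ℕ)
    {x : ℝ} (hx : c < x) :
    HasDerivAt (J F c j) (x ^ j / √((F.map (Int.castRingHom ℝ)).eval x)) x := by
  have hcont : ∀ y, c ≤ y → ContinuousAt (fun s : ℝ => s ^ j / √((F.map (Int.castRingHom ℝ)).eval s)) y := by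
    intro y hy
    have h1 : √((F.map (Int.castRingHom ℝ)).eval y) ≠ 0 := (Real.sqrt_pos.2 (hc y hy)).ne'
    refine ContinuousAt.div (by fun_prop) ?_ h1
    exact (Real.continuous_sqrt.comp (Polynomial.continuous _)).continuousAt
  refine intervalIntegral.integral_hasDerivAt_right ?_ ?_ (hcont x hx.le)
  · refine ContinuousOn.intervalIntegrable fun y hy => ?_
    rw [uIcc_of_le hx.le] at hy
    exact (hcont y hy.1).continuousWithinAt
  · refine Measurable.stronglyMeasurable ?_ |>.stronglyMeasurableAtFilter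
    exact (measurable_id.pow_const j).div
      ((Real.continuous_sqrt.comp (Polynomial.continuous _)).measurable)

theorem E_S {g : ℕ} {j : ℕ} {r z : ℝ} {R : ℚ⟦X⟧} (hR : SR r R) (hz : |z| ≤ r) :
    SR r ((1 + C (g : ℚ) * X) ^ j * R) ∧ E ((1 + C (g : ℚ) * X) ^ j * R) z = (1 + g * z) ^ j * E R z := by
  have hr : 0 ≤ r := (abs_nonneg z).trans hz
  have h1 : SR r (1 + C (g : ℚ) * X) := (SR.one r).add hr ((SR.C _ r).mul hr (SR.X r))
  refine ⟨(h1.pow hr j).mul hr hR, ?_⟩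
  rw [E_mul (h1.pow hr j) hR hz, E_pow hr h1 hz, E_add (SR.one r) ((SR.C _ r).mul hr (SR.X r)) hz,
    E_mul (SR.C _ r) (SR.X r) hz, E_one, E_C, E_X]
  simp

theorem odd_al {F : Polynomial ℤ} (hF : Good F) (j : ℕ) : Odd ((F.natDegree : ℤ) - 2 - 2 * (j : ℕ)) := by
  obtain ⟨k, hk⟩ := hF.odd
  exact ⟨(k : ℤ) - 1 - j, by rw [hk]; push_cast; ring⟩

theorem const (hrt : S_rt) {F : Polynomial ℤ} (hF : Good F) (c : ℝ)
    (hc : ∀ x ≥ c, 0 < (F.map (Int.castRingHom ℝ)).eval x) (g : ℕ) (j : Fin (F.natDegree - 1)) {r T : ℝ}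
    (hR : SR r (Rt (phi F g))) (hT : 0 < T) (hcT : c ≤ T) (hTr : 1 / T ≤ r) :
    ∃ κ : ℝ, ∀ t > T, J F c j (t + g) = κ - √t ^ (2 * ((j : ℕ) : ℤ) + 2 - F.natDegree) *
      E (Yf F g (Sum.inl j)) (1 / t) / √(F.leadingCoeff : ℝ) := by
  have ha : (0 : ℝ) < (F.leadingCoeff : ℝ) := by exact_mod_cast hF.pos
  have hsa : 0 < √(F.leadingCoeff : ℝ) := Real.sqrt_pos.2 ha
  set α : ℤ := (F.natDegree : ℤ) - 2 - 2 * (j : ℕ) with hα
  have hodd : Odd α := odd_al hF j
  set D : ℝ → ℝ := fun t => J F c j (t + g) + (√t ^ (-α) *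
    E (EU α ((1 + C (g : ℚ) * X) ^ (j : ℕ) * Rt (phi F g))) (1 / t)) / √(F.leadingCoeff : ℝ) with hD
  have hder : ∀ t > T, HasDerivAt D 0 t := by
    intro t ht
    have ht0 : 0 < t := hT.trans ht
    have htr : 1 / t < r := lt_of_lt_of_le (one_div_lt_one_div_of_lt hT ht) hTr
    have hz : 0 < 1 / t := by positivity
    have hg : (0 : ℝ) ≤ g := Nat.cast_nonneg g
    have hpos := hc (t + g) (by linarith)
    have h1 : HasDerivAt (fun t : ℝ => J F c j (t + g))
        ((t + g) ^ (j : ℕ) / √((F.map (Int.castRingHom ℝ)).eval (t + g))) t := by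
      have := (J_deriv F c hc j (x := t + g) (by linarith)).comp_add_const t (g : ℝ)
      exact this
    obtain ⟨hS1, hS2⟩ := E_S (g := g) (j := j) (z := 1 / t) hR (by rw [abs_of_pos hz]; exact htr.le)
    have h2 := (W_deriv hodd hS1 ht0 htr).div_const √(F.leadingCoeff : ℝ)
    refine (h1.add h2).congr_deriv ?_
    rw [hS2, Rt_val hrt hF.pos g hR ht0 htr hpos]
    have hs : 0 < √t := Real.sqrt_pos.2 ht0
    have hsF : 0 < √((F.map (Int.castRingHom ℝ)).eval (t + g)) := Real.sqrt_pos.2 hpos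
    have hsq : √t ^ 2 = t := Real.sq_sqrt ht0.le
    have z1 : √t ^ (-α - 2) * √t ^ F.natDegree = t ^ (j : ℕ) := by
      calc √t ^ (-α - 2) * √t ^ F.natDegree = √t ^ (-α - 2) * √t ^ (F.natDegree : ℤ) := by rw [zpow_natCast]
        _ = √t ^ (-α - 2 + F.natDegree) := (zpow_add₀ hs.ne' _ _).symm
        _ = √t ^ (((2 * (j : ℕ) : ℕ)) : ℤ) := by congr 1; rw [hα]; push_cast; ring
        _ = √t ^ (2 * (j : ℕ)) := by rw [zpow_natCast]
        _ = t ^ (j : ℕ) := by rw [pow_mul, hsq]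
    have z2 : (1 + g * (1 / t)) ^ (j : ℕ) * t ^ (j : ℕ) = (t + g) ^ (j : ℕ) := by
      rw [← mul_pow]
      congr 1
      field_simp
    rw [← z2, ← z1]
    field_simp
    ring
  have hconst : ∀ t > T, D t = D (T + 1) := by
    intro t ht
    refine isOpen_Ioi.is_const_of_deriv_eq_zero (s := Ioi T) isPreconnected_Ioi ?_ ?_ ht
      (by simp)
    · intro s hs
      exact (hder s hs).differentiableAt.differentiableWithinAt
    · intro s hs
      exact (hder s hs).deriv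
  refine ⟨D (T + 1), fun t ht => ?_⟩
  have h1 := hconst t ht
  have h2 : (2 * ((j : ℕ) : ℤ) + 2 - F.natDegree) = -α := by rw [hα]; ring
  rw [h2, ← h1, hD]
  show _ = J F c j (t + g) + _ / _ - _ * E (EU _ _) _ / _
  rw [← hα]
  ring

end Pool.Agent.Y574.HE
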