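import Pool.Agent.Y574.HE.C
import Mathlib.Analysis.SpecialFunctions.Complex.Analytic

/-! The constants do not depend on the shift; the main theorem. -/

set_option autoImplicit false

open PowerSeries Filter Topology Set

namespace Pool.Agent.Y574.HE

open Pool.Agent.Y113 Pool.Agent.Y916.Hy Pool.Agent.Y37.GF

theorem no_const {u v : ℝ → ℝ} (hu : AnalyticAt ℝ u 0) (hv : AnalyticAt ℝ v 0) {α : ℤ} (ha : Odd α) (g : ℕ)
    {T K : ℝ} (hT : 0 < T)
    (h : ∀ t > T, √t ^ (-α) * u (1 / t) - √(t + g) ^ (-α) * v (1 / (t + g)) = K) : K = 0 := by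
  -- the analytic function
  set Φ : ℝ → ℝ := fun z => u z - Real.exp (-(α : ℝ) * (Real.log (1 + g * z) / 2)) * v (z / (1 + g * z)) with hΦ
  have hlin : AnalyticAt ℝ (fun z : ℝ => 1 + (g : ℝ) * z) 0 := by fun_prop
  have hlog : AnalyticAt ℝ (fun z : ℝ => Real.log (1 + g * z)) 0 := hlin.log (by simp)
  have hdiv : AnalyticAt ℝ (fun z : ℝ => z / (1 + g * z)) 0 := analyticAt_id.div hlin (by simp)
  have hexp : AnalyticAt ℝ (fun z : ℝ => Real.exp (-(α : ℝ) * (Real.log (1 + g * z) / 2))) 0 :=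
    (analyticAt_const.mul (hlog.div analyticAt_const (by norm_num))).rexp'
  have hvc : AnalyticAt ℝ (fun z : ℝ => v (z / (1 + g * z))) 0 := by
    have := AnalyticAt.comp_of_eq (f := fun z : ℝ => z / (1 + g * z)) (g := v) (x := 0) (y := 0) hv hdiv (by simp)
    exact this
  have hΦa : AnalyticAt ℝ Φ 0 := hu.sub (hexp.mul hvc)
  -- the relation
  obtain ⟨N, p, hp⟩ : ∃ N p : ℕ, (p : ℤ) = α + 2 * N := ⟨α.natAbs, (α + 2 * α.natAbs).toNat, by omega⟩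
  have hpo : Odd p := by
    obtain ⟨k, hk⟩ := ha
    have : Odd (p : ℤ) := ⟨k + N, by rw [hp, hk]; ring⟩
    exact_mod_cast this
  have hrel : ∀ z : ℝ, 0 < z → z < 1 / T → K ^ 2 * z ^ (2 * N) = z ^ p * Φ z ^ 2 := by
    intro z hz hzT
    have ht : T < 1 / z := by rwa [lt_one_div hT hz]
    have ht0 : 0 < 1 / z := by positivity
    have h1 := h (1 / z) ht
    rw [one_div_one_div] at h1
    have hg : (0 : ℝ) ≤ g := Nat.cast_nonneg g
    have hgz : 0 < 1 + g * z := by positivity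
    have e1 : 1 / z + g = (1 / z) * (1 + g * z) := by field_simp
    have e2 : 1 / (1 / z + g) = z / (1 + g * z) := by rw [e1]; field_simp
    have e3 : √(1 / z + g) ^ (-α) = √(1 / z) ^ (-α) * Real.exp (-(α : ℝ) * (Real.log (1 + g * z) / 2)) := by
      rw [e1, Real.sqrt_mul ht0.le, mul_zpow]
      congr 1
      have e4 : √(1 + g * z) = Real.exp (Real.log (1 + g * z) / 2) := by
        rw [Real.exp_half, Real.exp_log hgz]
      rw [e4, ← Real.rpow_intCast, ← Real.exp_mul]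
      congr 1
      push_cast
      ring
    rw [e2, e3] at h1
    have e5 : K = √(1 / z) ^ (-α) * Φ z := by rw [← h1, hΦ]; ring
    have e6 : (√(1 / z) ^ (-α)) ^ 2 = z ^ α := by
      rw [← zpow_natCast, ← zpow_mul, mul_comm, zpow_mul]
      have : √(1 / z) ^ ((2 : ℕ) : ℤ) = 1 / z := by
        rw [zpow_natCast, Real.sq_sqrt ht0.le]
      rw [this, one_div, inv_zpow, zpow_neg, inv_inv]
    rw [e5, mul_pow, e6]
    have e7 : z ^ α * z ^ (2 * N) = z ^ p := by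
      rw [← zpow_natCast z (2 * N), ← zpow_add₀ hz.ne', ← zpow_natCast z p, hp]
      push_cast
      rfl
    rw [← e7]; ring
  have hfreq : ∃ᶠ z in 𝓝[≠] (0 : ℝ), K ^ 2 * z ^ (2 * N) = z ^ p * Φ z ^ 2 := by
    have h1 : ∀ᶠ z in 𝓝[>] (0 : ℝ), K ^ 2 * z ^ (2 * N) = z ^ p * Φ z ^ 2 := by
      have h2 : Ioo (0 : ℝ) (1 / T) ∈ 𝓝[>] (0 : ℝ) := Ioo_mem_nhdsGT (by positivity)
      filter_upwards [h2] with z hz
      exact hrel z hz.1 hz.2
    exact h1.frequently.filter_mono (nhdsWithin_mono _ fun x hx => (ne_of_gt hx))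
  have han1 : AnalyticAt ℝ (fun z : ℝ => K ^ 2 * z ^ (2 * N)) 0 := by fun_prop
  have han2 : AnalyticAt ℝ (fun z : ℝ => z ^ p * Φ z ^ 2) 0 := (analyticAt_id.pow p).mul (hΦa.pow 2)
  have hev := (han1.frequently_eq_iff_eventually_eq han2).1 hfreq
  have hneg : ∃ z : ℝ, z < 0 ∧ K ^ 2 * z ^ (2 * N) = z ^ p * Φ z ^ 2 := by
    have h1 : ∀ᶠ z in 𝓝[<] (0 : ℝ), K ^ 2 * z ^ (2 * N) = z ^ p * Φ z ^ 2 := hev.filter_mono nhdsWithin_le_nhds
    have h2 : ∀ᶠ z in 𝓝[<] (0 : ℝ), z < 0 := self_mem_nhdsWithin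
    exact (h2.and h1).exists
  obtain ⟨z, hz, hzz⟩ := hneg
  have h1 : z ^ p * Φ z ^ 2 ≤ 0 := mul_nonpos_of_nonpos_of_nonneg (hpo.pow_neg hz).le (sq_nonneg _)
  have h2 : 0 < z ^ (2 * N) := by
    have hz' : z ≠ 0 := hz.ne
    rw [pow_mul]; positivity
  have h3 : K ^ 2 * z ^ (2 * N) ≤ 0 := hzz.le.trans h1
  have h4 : K ^ 2 ≤ 0 := by
    by_contra hcon
    rw [not_le] at hcon
    have := mul_pos hcon h2
    linarith
  exact pow_eq_zero_iff (two_ne_zero) |>.1 (le_antisymm h4 (sq_nonneg K))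

theorem SR_Yf {F : Polynomial ℤ} (hF : Good F) {g : ℕ} {r : ℝ} (hr : 0 ≤ r) (hR : SR r (Rt (phi F g)))
    (j : Fin (F.natDegree - 1)) : SR r (Yf F g (Sum.inl j)) :=
  SR_EU (odd_al hF j) hr (E_S (g := g) (j := j) (z := 0) hR (by rw [abs_zero]; exact hr)).1

theorem t_hev (hrt : S_rt) (halg : S_alg) : S_hev := by
  intro F hF c hc
  obtain ⟨E0, hE0⟩ := halg F.natDegree
  obtain ⟨K, hK⟩ := phi_bound F
  -- convergence
  set E1 : ℕ := (K + 2) * E0 + 1 + ⌈|c|⌉₊ with hE1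
  have hSR : ∀ H g : ℕ, g ≤ H → SR (1 / ((H : ℝ) + 2) ^ E1) (Rt (phi F g)) := by
    intro H g hg
    have h1 := hE0 ((H + 2) ^ K) (phi F g) (by rw [phi_zero]; exact hF.pos) (phi_deg F g) (hK H g hg)
    have h2 : ∀ m, |((coeff m (Rt (phi F g)) : ℚ) : ℝ)| ≤ ((((H + 2) ^ K : ℕ) : ℝ) + 2) ^ E0 *
        (((((H + 2) ^ K : ℕ) : ℝ) + 2) ^ E0) ^ m := by
      intro m
      have h3 := h1.size true m
      rw [pow_succ, mul_comm] at h3
      exact h3
    have hb : (2 : ℝ) ≤ (H : ℝ) + 2 := by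
      have : (0 : ℝ) ≤ H := Nat.cast_nonneg H
      linarith
    have h4 : (((H + 2) ^ K : ℕ) : ℝ) + 2 ≤ ((H : ℝ) + 2) ^ (K + 2) := by
      push_cast
      have e1 : (1 : ℝ) ≤ ((H : ℝ) + 2) ^ K := one_le_pow₀ (by linarith)
      have e2 : (4 : ℝ) ≤ ((H : ℝ) + 2) ^ 2 := by nlinarith
      rw [pow_add]
      nlinarith
    have hpos : (0 : ℝ) < ((H : ℝ) + 2) ^ E1 := by positivity
    refine SR.of_bound (by positivity) (by positivity) ?_ h2
    rw [mul_one_div, div_lt_one hpos]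
    calc ((((H + 2) ^ K : ℕ) : ℝ) + 2) ^ E0 ≤ (((H : ℝ) + 2) ^ (K + 2)) ^ E0 := by
          refine pow_le_pow_left₀ (by positivity) h4 _
      _ = ((H : ℝ) + 2) ^ ((K + 2) * E0) := by rw [← pow_mul]
      _ < ((H : ℝ) + 2) ^ E1 := pow_lt_pow_right₀ (by linarith) (by omega)
  have hcE : ∀ H : ℕ, c ≤ ((H : ℝ) + 2) ^ E1 := by
    intro H
    have hb : (2 : ℝ) ≤ (H : ℝ) + 2 := by
      have : (0 : ℝ) ≤ H := Nat.cast_nonneg H
      linarith
    have e1 : c ≤ (⌈|c|⌉₊ : ℝ) := (le_abs_self c).trans (Nat.le_ceil _)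
    have e2 : (⌈|c|⌉₊ : ℝ) ≤ 2 ^ ⌈|c|⌉₊ := by exact_mod_cast (Nat.lt_two_pow_self (n := ⌈|c|⌉₊)).le
    have e3 : (2 : ℝ) ^ ⌈|c|⌉₊ ≤ ((H : ℝ) + 2) ^ ⌈|c|⌉₊ := pow_le_pow_left₀ (by norm_num) hb _
    have e4 : ((H : ℝ) + 2) ^ ⌈|c|⌉₊ ≤ ((H : ℝ) + 2) ^ E1 := pow_le_pow_right₀ (by linarith) (by omega)
    linarith
  have key : ∀ H g : ℕ, g ≤ H → ∀ j : Fin (F.natDegree - 1), ∃ κ : ℝ, ∀ t > ((H : ℝ) + 2) ^ E1,
      J F c j (t + g) = κ - √t ^ (2 * ((j : ℕ) : ℤ) + 2 - F.natDegree) *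
        E (Yf F g (Sum.inl j)) (1 / t) / √(F.leadingCoeff : ℝ) := fun H g hg j =>
    const hrt hF c hc g j (hSR H g hg) (by positivity) (hcE H) le_rfl
  classical
  refine ⟨fun j => if h : j < F.natDegree - 1 then (key 0 0 le_rfl ⟨j, h⟩).choose else 0, E1 + 1,
    fun H t ht g hg j => ?_⟩
  obtain ⟨κ, hκ⟩ := key H g hg j
  have hκ0 := (key 0 0 le_rfl j).choose_spec
  have hdef : (if h : (j : ℕ) < F.natDegree - 1 then (key 0 0 le_rfl ⟨j, h⟩).choose else 0) =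
      (key 0 0 le_rfl j).choose := by rw [dif_pos j.2]
  show _ = (if h : (j : ℕ) < F.natDegree - 1 then (key 0 0 le_rfl ⟨j, h⟩).choose else 0) - _
  rw [hdef]
  set κ0 := (key 0 0 le_rfl j).choose with hκ0d
  have ha : (0 : ℝ) < (F.leadingCoeff : ℝ) := by exact_mod_cast hF.pos
  have hsa : 0 < √(F.leadingCoeff : ℝ) := Real.sqrt_pos.2 ha
  have hH0 : (0 : ℝ) ≤ H := Nat.cast_nonneg H
  have hT : (0 : ℝ) < ((H : ℝ) + 2) ^ E1 := by positivity
  have hT0 : (((0 : ℕ) : ℝ) + 2) ^ E1 ≤ ((H : ℝ) + 2) ^ E1 := by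
    refine pow_le_pow_left₀ (by positivity) ?_ _
    push_cast; linarith
  have hg0 : (0 : ℝ) ≤ g := Nat.cast_nonneg g
  have hR0 := (hSR H g hg)
  have hu := analyticAt_E (by positivity) (SR_Yf hF (by positivity) (hSR H g hg) j)
  have hv := analyticAt_E (by positivity) (SR_Yf hF (by positivity) (hSR H 0 (Nat.zero_le _)) j)
  have hnc := no_const hu hv (odd_al hF j) g (T := ((H : ℝ) + 2) ^ E1) (K := √(F.leadingCoeff : ℝ) * (κ - κ0)) hT
    (by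
      intro t ht
      have e1 := hκ t ht
      have e2 := hκ0 (t + g) (by linarith)
      rw [show (((0 : ℕ) : ℕ) : ℝ) = 0 from Nat.cast_zero, add_zero] at e2
      have e3 : (-((F.natDegree : ℤ) - 2 - 2 * (j : ℕ))) = (2 * ((j : ℕ) : ℤ) + 2 - F.natDegree) := by ring
      rw [e3]
      rw [e1] at e2
      field_simp at e2
      linarith)
  have hkk : κ = κ0 := by
    rcases mul_eq_zero.1 hnc with h | h
    · exact absurd h hsa.ne'
    · linarith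
  have ht' : ((H : ℝ) + 2) ^ E1 < (t : ℝ) := by
    have e1 : ((H : ℝ) + 2) ^ (E1 + 1) ≤ (t : ℝ) := by exact_mod_cast ht
    have e2 : ((H : ℝ) + 2) ^ E1 < ((H : ℝ) + 2) ^ (E1 + 1) := pow_lt_pow_right₀ (by linarith) (by omega)
    linarith
  rw [← hkk]
  exact hκ t ht'

end Pool.Agent.Y574.HE
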